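import Pool.Agent.COS.Stmts

set_option autoImplicit false

/-!
COS row PRS: pairs of reduced matrices.
-/

namespace Pool.Agent.COS.H77

open Pool.Agent.COS

theorem prs (hg : GrpStmt) (hc : CrdStmt) (hr : RedStmt) : PrsStmt := by
  intro n W hne hW
  obtain ⟨U, hU, hodd⟩ := hc n
  have hfin : Finite (Gr n ⧸ U) := inferInstance
  have key := hg (Gr n) (Gr n ⧸ U) W hne hW hodd
  have heq : ∀ a b : Gr n, ((a : Gr n ⧸ U) = (b : Gr n ⧸ U)) ↔ a⁻¹ * b ∈ U := by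
    intro a b
    exact QuotientGroup.eq
  have hinj : ∀ a b : Gr n, Red a.1 → Red b.1 → (a : Gr n ⧸ U) = (b : Gr n ⧸ U) → a = b := by
    intro a b ha hb hab
    have h1 := (heq a b).1 hab
    obtain ⟨c, -, hc2⟩ := hr n b
    have h2 := hc2 a ⟨ha, a⁻¹ * b, (hU _).1 h1, by group⟩
    have h3 := hc2 b ⟨hb, 1, (hU _).1 U.one_mem, by group⟩
    rw [h2, h3]
  have hsurj : ∀ x : Gr n ⧸ U, ∃ a : Gr n, Red a.1 ∧ (a : Gr n ⧸ U) = x := by
    intro x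
    obtain ⟨g, rfl⟩ := QuotientGroup.mk_surjective x
    obtain ⟨a, ⟨ha, u, hu, hgu⟩, -⟩ := hr n g
    refine ⟨a, ha, ?_⟩
    rw [heq, hgu]
    have : a⁻¹ * (a * u) = u := by group
    rw [this]
    exact (hU _).2 hu
  have himg : (fun p : Gr n × Gr n => ((p.1 : Gr n ⧸ U), (p.2 : Gr n ⧸ U))) ''
      {p : Gr n × Gr n | Red p.1.1 ∧ Red p.2.1 ∧ ∃ u : Gr n, IsUni u.1 ∧
        p.2 * u * p.1⁻¹ ∈ W} = {p : (Gr n ⧸ U) × (Gr n ⧸ U) | ∃ w ∈ W, w • p.1 = p.2} := by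
    ext ⟨x, y⟩
    constructor
    · rintro ⟨⟨a, b⟩, ⟨_, _, u, hu, hw⟩, hxy⟩
      simp only [Prod.mk.injEq] at hxy
      refine ⟨_, hw, ?_⟩
      show (b * u * a⁻¹) • x = y
      rw [← hxy.1, ← hxy.2]
      show (((b * u * a⁻¹) * a : Gr n) : Gr n ⧸ U) = (b : Gr n ⧸ U)
      rw [heq]
      have : (b * u * a⁻¹ * a)⁻¹ * b = u⁻¹ := by group
      rw [this]
      exact U.inv_mem ((hU _).2 hu)
    · rintro ⟨w, hw, hxy⟩
      obtain ⟨a, ha, hax⟩ := hsurj x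
      obtain ⟨b, hb, hby⟩ := hsurj y
      refine ⟨(a, b), ⟨ha, hb, b⁻¹ * (w * a), ?_, ?_⟩, ?_⟩
      · apply (hU _).1
        have h1 : ((w * a : Gr n) : Gr n ⧸ U) = (b : Gr n ⧸ U) := by
          have h2 : w • x = y := hxy
          rw [← hax, ← hby] at h2
          exact h2
        exact (heq b (w * a)).1 h1.symm
      · show b * (b⁻¹ * (w * a)) * a⁻¹ ∈ W
        have : b * (b⁻¹ * (w * a)) * a⁻¹ = w := by group
        rw [this]
        exact hw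
      · show ((a : Gr n ⧸ U), (b : Gr n ⧸ U)) = (x, y)
        rw [hax, hby]
  rw [← himg, Set.InjOn.ncard_image] at key
  · exact key
  · rintro ⟨a, b⟩ ⟨ha, hb, _⟩ ⟨a', b'⟩ ⟨ha', hb', _⟩ hab
    simp only [Prod.mk.injEq] at hab
    rw [hinj a a' ha ha' hab.1, hinj b b' hb hb' hab.2]

end Pool.Agent.COS.H77
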